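import Pool.Agent.R910.Nil.HomDefs

/-!
# Abel-Jacobi maps: definitions
-/

open CategoryTheory AlgebraicGeometry
open Pool.Agent.H914 Pool.Agent.H914.VarClass Pool.Agent.H914.VarClass.Obj

universe u v w

namespace Pool.Agent.R910.Pow

open Pool.Agent.R903 Pool.Agent.R910.Nil

variable {k : Type u} [Field k] {𝒱 : VarClass k}

/-- Data: for each `X` the space `hom X` of homologically trivial classes, a rational vector space
`J X` with subspaces `gr X p`, the target of the Abel-Jacobi map for codimension `p`, the Abel-Jacobi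
map, pull-back, push-forward and products with classes of cycles. -/
structure AJData (C : ChowTheory.{u, v} 𝒱) where
  /-- the homologically trivial classes -/
  hom : ∀ X : 𝒱.Obj, Submodule ℚ (C.CH X)
  /-- the target of the Abel-Jacobi map -/
  J : 𝒱.Obj → Type w
  [group : ∀ X, AddCommGroup (J X)]
  [module : ∀ X, Module ℚ (J X)]
  /-- `gr X p` is the target for codimension `p` -/
  gr : ∀ X, ℕ → Submodule ℚ (J X)
  /-- the Abel-Jacobi map; only its values on homologically trivial classes matter -/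
  aj : ∀ X : 𝒱.Obj, C.CH X → J X
  /-- pull-back -/
  pull : ∀ {X Y : 𝒱.Obj}, (X ⟶ Y) → (J Y →ₗ[ℚ] J X)
  /-- push-forward -/
  push : ∀ {X Y : 𝒱.Obj}, (X ⟶ Y) → (J X →ₗ[ℚ] J Y)
  /-- product with a class of cycles -/
  mul : ∀ X : 𝒱.Obj, C.CH X → (J X →ₗ[ℚ] J X)

attribute [instance] AJData.group AJData.module

/-- The class `a` is homologically trivial and its image under the Abel-Jacobi map is `x`. -/
def AJData.HasImage {C : ChowTheory.{u, v} 𝒱} (A : AJData.{u, v, w} C) {X : 𝒱.Obj}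
    (a : C.CH X) (x : A.J X) : Prop :=
  a ∈ A.hom X ∧ A.aj X a = x

/-- The Abel-Jacobi map respects the codimension and is compatible with pull-back, push-forward and
products. -/
structure AJData.IsFunctorial {C : ChowTheory.{u, v} 𝒱} (A : AJData.{u, v, w} C) : Prop where
  mem_gr : ∀ {X : 𝒱.Obj} {p : ℕ} {a : C.CH X} {x : A.J X}, IsCodim C p a → A.HasImage a x →
    x ∈ A.gr X p
  pull : ∀ {X Y : 𝒱.Obj} (f : X ⟶ Y) {a : C.CH Y} {x : A.J Y}, A.HasImage a x →
    A.HasImage (pullOf C f a) (A.pull f x)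
  push : ∀ {X Y : 𝒱.Obj} (f : X ⟶ Y) {a : C.CH X} {x : A.J X}, A.HasImage a x →
    A.HasImage (pushOf C f a) (A.push f x)
  mul : ∀ {X : 𝒱.Obj} (b : C.CH X) {a : C.CH X} {x : A.J X}, A.HasImage a x →
    A.HasImage (a * b) (A.mul X b x)

/-- The class `a` is homologically trivial and in the kernel of the Abel-Jacobi map. -/
def AJTriv {C : ChowTheory.{u, v} 𝒱} (A : AJData.{u, v, w} C) {X : 𝒱.Obj} (a : C.CH X) : Prop :=
  A.HasImage a 0

/-- The Abel-Jacobi map is injective on the varieties in `𝒮`. -/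
def AJInjective {C : ChowTheory.{u, v} 𝒱} (A : AJData.{u, v, w} C) (𝒮 : Set 𝒱.Obj) : Prop :=
  ∀ X ∈ 𝒮, ∀ (p : ℕ) (a : C.CH X), IsCodim C p a → AJTriv A a → a = 0

/-- The Abel-Jacobi map is injective on the classes of dimension `j` on `X`. -/
def AJInjectiveIn {C : ChowTheory.{u, v} 𝒱} (A : AJData.{u, v, w} C) (X : 𝒱.Obj) (j : ℕ) :
    Prop :=
  j ≤ X.dim → ∀ a : C.CH X, IsCodim C (X.dim - j) a → AJTriv A a → a = 0

/-- If a linear combination of `p`-th powers of divisor classes on `X` is in the kernel of the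
Abel-Jacobi map, then it is `0`. -/
def AJInjectiveOnPowers {C : ChowTheory.{u, v} 𝒱} (A : AJData.{u, v, w} C) (X : 𝒱.Obj)
    (p : ℕ) : Prop :=
  ∀ a : C.CH X, a ∈ powerSpan C X p → AJTriv A a → a = 0

/-- A class of codimension `p` on `Z` is homologically trivial if its push-forward to `X` is. -/
def HomPushInjective {C : ChowTheory.{u, v} 𝒱} (A : AJData.{u, v, w} C) {X Z : 𝒱.Obj}
    (f : Z ⟶ X) (p : ℕ) : Prop :=
  ∀ a : C.CH Z, IsCodim C p a → pushOf C f a ∈ A.hom X → a ∈ A.hom Z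

/-- The push-forward `J ^ p (Z) → J ^ (p + 1) (X)` is injective. -/
def JPushInjective {C : ChowTheory.{u, v} 𝒱} (A : AJData.{u, v, w} C) {X Z : 𝒱.Obj}
    (f : Z ⟶ X) (p : ℕ) : Prop :=
  ∀ x : A.J Z, x ∈ A.gr Z p → A.push f x = 0 → x = 0

/-- The class `w` of dimension `j` on `X` is the push-forward of a class on a hyperplane section
`f : Z ⟶ X`, with `Z` in `𝒮`, such that the push-forwards in cohomology and
`J ^ p (Z) → J ^ (p + 1) (X)` are injective for `p = dim Z - j`. -/
def AJFromSection {C : ChowTheory.{u, v} 𝒱} (A : AJData.{u, v, w} C) (𝒮 : Set 𝒱.Obj)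
    (X : 𝒱.Obj) (j : ℕ) (w : C.CH X) : Prop :=
  ∃ Z ∈ 𝒮, ∃ f : Z ⟶ X, X.dim = Z.dim + 1 ∧
    (∃ w' : C.CH Z, IsCodim C (Z.dim - j) w' ∧ pushOf C f w' = w) ∧
    HomPushInjective A f (Z.dim - j) ∧ JPushInjective A f (Z.dim - j)

/-- The set `𝒮` of varieties is closed under hyperplane sections and under products with a
projective line: if `dim X > 2 j + 2`, every class of dimension `j` on `X` in `𝒮` comes from a
section. -/
structure HasAJSections {C : ChowTheory.{u, v} 𝒱} (A : AJData.{u, v, w} C) (𝒮 : Set 𝒱.Obj) :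
    Prop where
  sections : ∀ X ∈ 𝒮, ∀ j, 2 * j + 2 < X.dim → ∀ w : C.CH X, IsCodim C (X.dim - j) w →
    AJFromSection A 𝒮 X j w
  line : ∃ P, IsLineFor C 𝒮 P

end Pool.Agent.R910.Pow
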