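import Pool.Agent.R910.Pow.Mid
import Pool.Agent.R910.Pow.AJDefs

/-!
# The Abel-Jacobi map and the middle dimension
-/

open CategoryTheory AlgebraicGeometry
open Pool.Agent.H914 Pool.Agent.H914.VarClass Pool.Agent.H914.VarClass.Obj

universe u v w

namespace Pool.Agent.R910.Pow

open Pool.Agent.R903 ChowTheory Pool.Agent.R910.Nil

variable {k : Type u} [Field k] {𝒱 : VarClass k} {C : ChowTheory.{u, v} 𝒱} {X Y Z P : 𝒱.Obj}
  {𝒮 ℛ : Set 𝒱.Obj} {A : AJData.{u, v, w} C}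

lemma HasImage.unique {a : C.CH X} {x y : A.J X} (h : A.HasImage a x) (h' : A.HasImage a y) :
    x = y := by
  obtain ⟨_, rfl⟩ := h
  obtain ⟨_, rfl⟩ := h'
  rfl

lemma adequate_ajTriv (hA : A.IsFunctorial) : Adequate C fun X a => AJTriv A (X := X) a := by
  rintro X Y a _ ⟨γ, rfl⟩ h
  change A.HasImage _ _
  have h1 := hA.push (snd X Y) (hA.mul γ (hA.pull (fst X Y) h))
  rw [map_zero, map_zero, map_zero] at h1
  have h2 : pushOf C (snd X Y) (pullOf C (fst X Y) a * γ) = C.act γ a := by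
    rw [C.act_apply, mul_comm]
    rfl
  rwa [h2] at h1

lemma sectionsFor_ajTriv (hA : A.IsFunctorial) (hS : HasAJSections A 𝒮) :
    SectionsFor (C := C) (fun X a => AJTriv A (X := X) a) 𝒮 2 := by
  intro X hX j hj w hw hT
  obtain ⟨Z, hZ, f, hd, ⟨w₁, hw₁, rfl⟩, h1, h2⟩ := hS.sections X hX j hj w hw
  refine ⟨Z, hZ, f, hd, w₁, hw₁, ?_, rfl⟩
  obtain ⟨h3, h4⟩ := hT
  have h5 : w₁ ∈ A.hom Z := h1 w₁ hw₁ h3
  have h6 : A.HasImage w₁ (A.aj Z w₁) := ⟨h5, rfl⟩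
  have h7 := h2 _ (hA.mem_gr hw₁ h6) (HasImage.unique (hA.push f h6) ⟨h3, h4⟩)
  rw [h7] at h6
  exact h6

lemma ajInjective_iff : AJInjective A 𝒮 ↔ ∀ X ∈ 𝒮, ∀ j,
    ImpliesIn (C := C) (fun X a => AJTriv A (X := X) a) (fun _ a => a = 0) X j := by
  constructor
  · intro h X hX j _ a ha hn
    exact h X hX _ a ha hn
  · intro h X hX r a ha hn
    change a ∈ C.gr X r at ha
    rcases Nat.lt_or_ge X.dim r with h1 | h1
    · rwa [C.gr_eq_bot X r h1, Submodule.mem_bot] at ha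
    · refine h X hX (X.dim - r) (by omega) a ?_ hn
      rwa [show X.dim - (X.dim - r) = r by omega]

/-- **The Abel-Jacobi map in the middle dimension**, for cycles of dimension `j`. -/
theorem ajInjectiveIn_tfae (hA : A.IsFunctorial) (hS : HasAJSections A 𝒮)
    (hR : IsBlowUpFamily C 𝒮 ℛ) (hs : SplitsByBlowUps C ℛ) (j : ℕ) :
    List.TFAE [
      ∀ X ∈ 𝒮, X.dim = 2 * j + 2 → AJInjectiveIn A X j,
      ∀ X ∈ 𝒮, ∀ i ≤ j, AJInjectiveIn A X i,
      ∃ n, 2 * j + 2 ≤ n ∧ ∀ X ∈ 𝒮, X.dim = n → AJInjectiveIn A X j,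
      ∀ B ∈ ℛ, B.dim = 2 * j + 4 → AJInjectiveOnPowers A B (j + 3),
      ∀ B ∈ ℛ, ∀ i ≤ j + 1, AJInjectiveIn A B i] := by
  obtain ⟨P, hP⟩ := hS.line
  exact impliesIn_tfae (C := C) (adequate_ajTriv hA) adequate_zero
    (fun X m a ha => Finset.sum_eq_zero fun s _ => ha s) (fun _ => rfl)
    (sectionsFor_ajTriv hA hS) hP hR hs j

/-- **The Abel-Jacobi map in the middle dimension**, for all cycles. -/
theorem ajInjective_tfae (hA : A.IsFunctorial) (hS : HasAJSections A 𝒮)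
    (hR : IsBlowUpFamily C 𝒮 ℛ) (hs : SplitsByBlowUps C ℛ) :
    List.TFAE [
      AJInjective A 𝒮,
      AJInjective A ℛ,
      ∀ m, ∃ j, m ≤ j ∧ ∀ X ∈ 𝒮, X.dim = 2 * j + 2 → AJInjectiveIn A X j,
      ∀ m, ∃ j, m ≤ j ∧ ∀ B ∈ ℛ, B.dim = 2 * j + 2 → AJInjectiveOnPowers A B (j + 2)] := by
  obtain ⟨P, hP⟩ := hS.line
  rw [ajInjective_iff, ajInjective_iff]
  exact implies_tfae (C := C) (adequate_ajTriv hA) adequate_zero
    (fun X m a ha => Finset.sum_eq_zero fun s _ => ha s) (fun _ => rfl)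
    (sectionsFor_ajTriv hA hS) hP hR hs

end Pool.Agent.R910.Pow
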