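import Pool.Agent.R910.Pow.AJPowDefs
import Pool.Agent.R910.Pow.AJ

/-!
# Abel-Jacobi maps and powers of divisors
-/

open CategoryTheory AlgebraicGeometry
open Pool.Agent.H914 Pool.Agent.H914.VarClass Pool.Agent.H914.VarClass.Obj

universe u v w w'

namespace Pool.Agent.R910.Pow

open Pool.Agent.R903 ChowTheory Pool.Agent.R910.Nil

variable {k : Type u} [Field k] {𝒱 : VarClass k} {C : ChowTheory.{u, v} 𝒱} {X Y : 𝒱.Obj}
  {B : BundleData.{u, v, w'} C} {𝒮 ℛ : Set 𝒱.Obj} {A : AJData.{u, v, w} C}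

/-- **Injectivity of the Abel-Jacobi maps and powers of divisor classes.** -/
theorem ajInjective_tfae_powers (hA : A.IsFunctorial) (hH : HasHulls C 𝒮 ℛ)
    (hR : HasProjectiveBundles B ℛ) :
    List.TFAE [AJInjective A 𝒮, AJInjective A ℛ, AJInjectiveForPolynomials A ℛ,
      AJInjectiveForPowers A ℛ] := by
  tfae_have 1 → 2 := fun h X hX => h X (hH.subset hX)
  tfae_have 2 → 3 := fun h X hX p w hw => h X hX p w (powerSpan_le X p hw)
  tfae_have 3 → 4 := fun h X hX D r hD =>
    h X hX r (D ^ r) (Submodule.subset_span ⟨D, hD, rfl⟩)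
  tfae_have 4 → 1 := fun h =>
    (forall_iff_powers hH hR (adequate_ajTriv hA) adequate_zero).2 h
  tfae_finish

end Pool.Agent.R910.Pow
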