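import Pool.Agent.R910.Pow.Defs
import Pool.Agent.R910.Nil.HomDefs

/-!
# Interchangeable classes and rational hulls: definitions
-/

open CategoryTheory AlgebraicGeometry
open Pool.Agent.H914 Pool.Agent.H914.VarClass Pool.Agent.H914.VarClass.Obj

universe u v w

namespace Pool.Agent.R910.Pow

open Pool.Agent.R903 Pool.Agent.R910.Nil

variable {k : Type u} [Field k] {𝒱 : VarClass k}

/-- The class `b` on `Y` is the image of the class `a` on `X` under a correspondence. -/
def IsImage (C : ChowTheory.{u, v} 𝒱) {X Y : 𝒱.Obj} (a : C.CH X) (b : C.CH Y) : Prop :=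
  ∃ γ : C.CH (X.prod Y), C.act γ a = b

/-- The classes `a` on `X` and `b` on `Y` are images of each other under correspondences. Then `a` is
trivial if and only if `b` is trivial, for each adequate equivalence relation. -/
def Interchangeable (C : ChowTheory.{u, v} 𝒱) {X Y : 𝒱.Obj} (a : C.CH X) (b : C.CH Y) : Prop :=
  IsImage C a b ∧ IsImage C b a

/-- The class `w` on `X` is interchangeable with a power of a divisor class on a variety in `ℛ`. -/
def IsPowerOn (C : ChowTheory.{u, v} 𝒱) (ℛ : Set 𝒱.Obj) {X : 𝒱.Obj} (w : C.CH X) : Prop :=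
  ∃ Y ∈ ℛ, ∃ (D : C.CH Y) (r : ℕ), IsCodim C 1 D ∧ Interchangeable C w (D ^ r)

/-- Every `X` in `𝒮` is related to a variety `B` in the subset `ℛ` like the centre of a blow-up, up to
a birational morphism: there are morphisms `p : E ⟶ X` and `i : E ⟶ B` with `p_* i^* i_* p^* = c` and
`dim E = dim X + 1`, `dim B = dim X + 2`. -/
structure HasHulls (C : ChowTheory.{u, v} 𝒱) (𝒮 ℛ : Set 𝒱.Obj) : Prop where
  subset : ℛ ⊆ 𝒮
  hull : ∀ X ∈ 𝒮, ∃ B ∈ ℛ, B.dim = X.dim + 2 ∧ ∃ (E : 𝒱.Obj) (p : E ⟶ X) (i : E ⟶ B),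
    E.dim = X.dim + 1 ∧ IsCentreOf C p i

/-- The class `w` on `X` is interchangeable with a power `D ^ r` of a divisor class on a variety in `ℛ`;
in particular `w` is homologically trivial if and only if `D ^ r` is, and `w` is smash-nilpotent if and
only if `D ^ r` is. -/
def IsHomPowerOn {C : ChowTheory.{u, v} 𝒱} (W : WeilTheory.{u, v, w} C) (ℛ : Set 𝒱.Obj)
    {X : 𝒱.Obj} (w : C.CH X) : Prop :=
  ∃ Y ∈ ℛ, ∃ (D : C.CH Y) (r : ℕ), IsCodim C 1 D ∧ Interchangeable C w (D ^ r) ∧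
    (HomTriv W w ↔ HomTriv W (D ^ r)) ∧ (C.SmashNilpotent w ↔ C.SmashNilpotent (D ^ r))

/-- If the power `D ^ r` of a divisor class on a variety in `ℛ` is homologically trivial, then it is
smash-nilpotent. -/
def HomVoevodskyForPowers {C : ChowTheory.{u, v} 𝒱} (W : WeilTheory.{u, v, w} C)
    (ℛ : Set 𝒱.Obj) : Prop :=
  ∀ Y ∈ ℛ, ∀ (D : C.CH Y) (r : ℕ), IsCodim C 1 D → HomTriv W (D ^ r) →
    C.SmashNilpotent (D ^ r)

end Pool.Agent.R910.Pow
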