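import Pool.Agent.R910.Pow.AJDefs
import Pool.Agent.R910.Pow.HullDefs

/-!
# Abel-Jacobi maps and powers of divisors: definitions
-/

open CategoryTheory AlgebraicGeometry
open Pool.Agent.H914 Pool.Agent.H914.VarClass Pool.Agent.H914.VarClass.Obj

universe u v w

namespace Pool.Agent.R910.Pow

open Pool.Agent.R903 Pool.Agent.R910.Nil

variable {k : Type u} [Field k] {𝒱 : VarClass k}

/-- If a linear combination of `p`-th powers of divisor classes on a variety in `ℛ` is in the kernel
of the Abel-Jacobi map, then it is `0`, for all `p`. -/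
def AJInjectiveForPolynomials {C : ChowTheory.{u, v} 𝒱} (A : AJData.{u, v, w} C)
    (ℛ : Set 𝒱.Obj) : Prop :=
  ∀ Y ∈ ℛ, ∀ p : ℕ, AJInjectiveOnPowers A Y p

/-- If a power `D ^ r` of a divisor class on a variety in `ℛ` is in the kernel of the Abel-Jacobi map,
then it is `0`. -/
def AJInjectiveForPowers {C : ChowTheory.{u, v} 𝒱} (A : AJData.{u, v, w} C) (ℛ : Set 𝒱.Obj) :
    Prop :=
  ∀ Y ∈ ℛ, ∀ (D : C.CH Y) (r : ℕ), IsCodim C 1 D → AJTriv A (D ^ r) → D ^ r = 0

end Pool.Agent.R910.Pow
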