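import Pool.Agent.R910.Pow.Defs

/-!
# Newton's identities and ideals
-/

universe v

namespace Pool.Agent.R910.Pow

variable {A : Type v} [CommRing A] [Algebra ℚ A]

lemma mem_of_nat_mul_mem {I : Ideal A} {n : ℕ} (hn : n ≠ 0) {x : A} (h : (n : A) * x ∈ I) :
    x ∈ I := by
  have h1 := I.mul_mem_left (algebraMap ℚ A (n : ℚ)⁻¹) h
  rwa [← mul_assoc, show (n : A) = algebraMap ℚ A (n : ℚ) by rw [map_natCast], ← map_mul,
    inv_mul_cancel₀ (by exact_mod_cast hn), map_one, one_mul] at h1

/-- The Chern classes of positive degree are in each ideal which contains the components of positive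
degree of the Chern character. -/
lemma chern_mem {r : ℕ} {c ch : ℕ → A} (h : IsChern r c ch) (I : Ideal A)
    (hI : ∀ i, 1 ≤ i → ch i ∈ I) (i : ℕ) (hi : 1 ≤ i) : c i ∈ I := by
  refine mem_of_nat_mul_mem (n := i) (by omega) ?_
  rw [h.newton i]
  exact I.sum_mem fun l _ => I.mul_mem_left _ (I.mul_mem_left _ (hI (l + 1) (by omega)))

/-- The components of positive degree of the Chern character are in each ideal which contains the
Chern classes of positive degree. -/
lemma ch_mem {r : ℕ} {c ch : ℕ → A} (h : IsChern r c ch) (I : Ideal A)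
    (hI : ∀ i, 1 ≤ i → c i ∈ I) (i : ℕ) (hi : 1 ≤ i) : ch i ∈ I := by
  obtain ⟨j, rfl⟩ : ∃ j, i = j + 1 := ⟨i - 1, by omega⟩
  have h1 := h.newton (j + 1)
  rw [Finset.sum_range_succ, show j + 1 - 1 - j = 0 by omega, h.c_zero, mul_one] at h1
  have h2 : (-1) ^ j * ((((j + 1).factorial : ℕ) : A) * ch (j + 1)) ∈ I := by
    have h3 : (-1) ^ j * ((((j + 1).factorial : ℕ) : A) * ch (j + 1)) =
        ((j + 1 : ℕ) : A) * c (j + 1) - ∑ l ∈ Finset.range j,
          (-1) ^ l * c (j + 1 - 1 - l) * (((l + 1).factorial : ℕ) * ch (l + 1)) := by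
      rw [h1]; ring
    rw [h3]
    refine I.sub_mem (I.mul_mem_left _ (hI _ (by omega))) (I.sum_mem fun l hl => ?_)
    have hl' := Finset.mem_range.1 hl
    exact I.mul_mem_right _ (I.mul_mem_left _ (hI _ (by omega)))
  have h4 := I.mul_mem_left ((-1) ^ j) h2
  rw [← mul_assoc, ← mul_pow, neg_one_mul, neg_neg, one_pow, one_mul] at h4
  exact mem_of_nat_mul_mem (Nat.factorial_ne_zero _) h4

end Pool.Agent.R910.Pow
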