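import Pool.Agent.R910.Nil.Defs

/-!
# Vector bundles, their Chern classes and projective bundles: definitions
-/

open CategoryTheory AlgebraicGeometry
open Pool.Agent.H914 Pool.Agent.H914.VarClass Pool.Agent.H914.VarClass.Obj

universe u v w

namespace Pool.Agent.R910.Pow

open Pool.Agent.R903 Pool.Agent.R910.Nil

section Alg

variable {A : Type v} [CommRing A] [Algebra ℚ A]

/-- The identities of Newton `i c_i = ∑_{l = 1}^i (-1)^(l-1) c_(i-l) p_l` between the elementary
symmetric functions `c` and the power sums `p_l = l! ch_l`. -/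
def NewtonIdentities (c ch : ℕ → A) : Prop :=
  ∀ i : ℕ, (i : A) * c i =
    ∑ l ∈ Finset.range i, (-1) ^ l * c (i - 1 - l) * (((l + 1).factorial : ℕ) * ch (l + 1))

/-- `c` and `ch` behave like the Chern classes and the components of the Chern character of a vector
bundle of rank `r`. -/
structure IsChern (r : ℕ) (c ch : ℕ → A) : Prop where
  c_zero : c 0 = 1
  c_eq_zero : ∀ i, r < i → c i = 0
  ch_zero : ch 0 = (r : A)
  newton : NewtonIdentities c ch

/-- `a` is the sum of `b` and `c`. -/
def IsSum (a b c : ℕ → A) : Prop :=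
  ∀ i, a i = b i + c i

/-- `a` is the product of `b` and `c`, in terms of the homogeneous components. -/
def IsProduct (a b c : ℕ → A) : Prop :=
  ∀ i, a i = ∑ j ∈ Finset.range (i + 1), b j * c (i - j)

/-- `a` is the number `m`, with components in degree zero only. -/
def IsConstant (m : ℕ) (a : ℕ → A) : Prop :=
  ∀ i, a i = if i = 0 then (m : A) else 0

/-- The component of degree `p` of `a - b` is `N` times `w`, and all other components are `0`. -/
def IsConcentrated (p N : ℕ) (w : A) (a b : ℕ → A) : Prop :=
  ∀ i, a i - b i = if i = p then (N : A) * w else 0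

end Alg

variable {k : Type u} [Field k] {𝒱 : VarClass k}

/-- Data: the vector bundles on the varieties of the class, their ranks, Chern classes and the
components of their Chern characters. -/
structure BundleData (C : ChowTheory.{u, v} 𝒱) where
  /-- the vector bundles on `X` -/
  Bun : 𝒱.Obj → Type w
  /-- the rank -/
  rank : ∀ {X : 𝒱.Obj}, Bun X → ℕ
  /-- the Chern classes -/
  c : ∀ {X : 𝒱.Obj}, Bun X → ℕ → C.CH X
  /-- the components of the Chern character -/
  ch : ∀ {X : 𝒱.Obj}, Bun X → ℕ → C.CH X

/-- The morphism `q : P ⟶ X` and the divisor class `ξ` on `P` behave like the bundle of lines in a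
vector bundle of rank `r` with Chern classes `c`, and the first Chern class of `O(1)`:
`q_* ξ^(r-1) = 1`, `q_* ξ^i = 0` for `i < r - 1`, and `∑ c_i ξ^(r-i) = 0`. -/
structure IsProjectiveBundle (C : ChowTheory.{u, v} 𝒱) {P X : 𝒱.Obj} (q : P ⟶ X) (r : ℕ)
    (c : ℕ → C.CH X) (ξ : C.CH P) : Prop where
  codim : IsCodim C 1 ξ
  push_top : pushOf C q (ξ ^ (r - 1)) = 1
  push_low : ∀ i, i < r - 1 → pushOf C q (ξ ^ i) = 0
  relation : ∑ i ∈ Finset.range (r + 1), pullOf C q (c i) * ξ ^ (r - i) = 0

/-- The vector bundles on `X` have these known properties.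
* direct sums and tensor products exist, and the Chern character is additive and multiplicative;
* for each `V` there are a line bundle `L` and a vector bundle `Q` such that `V ⊗ L` and `Q` are the
  sub-bundle and the quotient in an exact sequence whose middle term is trivial;
* the Chern character is an isomorphism from `K_0(X)` to `CH(X)`, rationally: each class of
  codimension `p` has a multiple which is the Chern character of a virtual bundle. -/
structure HasBundles {C : ChowTheory.{u, v} 𝒱} (B : BundleData.{u, v, w} C) (X : 𝒱.Obj) :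
    Prop where
  chern : ∀ V : B.Bun X, IsChern (B.rank V) (B.c V) (B.ch V)
  sum : ∀ V V' : B.Bun X, ∃ U : B.Bun X, IsSum (B.ch U) (B.ch V) (B.ch V')
  tensor : ∀ V V' : B.Bun X, ∃ U : B.Bun X, IsProduct (B.ch U) (B.ch V) (B.ch V')
  embed : ∀ V : B.Bun X, ∃ (L Q : B.Bun X) (m : ℕ) (a t : ℕ → C.CH X), B.rank L = 1 ∧
    IsProduct a (B.ch V) (B.ch L) ∧ IsSum t a (B.ch Q) ∧ IsConstant m t
  chern_onto : ∀ (p : ℕ) (w : C.CH X), IsCodim C p w →
    ∃ (V V' : B.Bun X) (N : ℕ), N ≠ 0 ∧ IsConcentrated p N w (B.ch V) (B.ch V')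

/-- The varieties in `ℛ` have vector bundles with the known properties, and the projective bundles
over the varieties in `ℛ` are in `ℛ`. -/
structure HasProjectiveBundles {C : ChowTheory.{u, v} 𝒱} (B : BundleData.{u, v, w} C)
    (ℛ : Set 𝒱.Obj) : Prop where
  bundles : ∀ X ∈ ℛ, HasBundles B X
  projective : ∀ X ∈ ℛ, ∀ V : B.Bun X, 1 ≤ B.rank V → ∃ P ∈ ℛ, ∃ (q : P ⟶ X) (ξ : C.CH P),
    IsProjectiveBundle C q (B.rank V) (B.c V) ξ

end Pool.Agent.R910.Pow
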