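import Pool.Agent.R910.Pow.Alg
import Pool.Agent.R910.Nil.Push

/-!
# Every class of cycles is equivalent to a power of a divisor class
-/

open CategoryTheory AlgebraicGeometry
open Pool.Agent.H914 Pool.Agent.H914.VarClass Pool.Agent.H914.VarClass.Obj

universe u v w

namespace Pool.Agent.R910.Pow

open Pool.Agent.R903 ChowTheory Pool.Agent.R910.Nil

variable {k : Type u} [Field k] {𝒱 : VarClass k} {C : ChowTheory.{u, v} 𝒱} {X Y P : 𝒱.Obj}
  {B : BundleData.{u, v, w} C}

/-- For each class `w` of positive codimension there is a vector bundle `U` such that `w` generates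
the ideal of the components of positive degree of the Chern character of `U`. -/
lemma exists_bundle (hB : HasBundles B X) {p : ℕ} (hp : 1 ≤ p) {w : C.CH X}
    (hw : w ∈ C.gr X p) : ∃ (U : B.Bun X) (N : ℕ), N ≠ 0 ∧ B.ch U p = (N : C.CH X) * w ∧
      ∀ i, 1 ≤ i → B.ch U i ∈ Ideal.span {w} := by
  obtain ⟨V, V', N, hN, h1⟩ := hB.chern_onto p w hw
  obtain ⟨L, Q, m, a, t, hL, ha, ht, hm⟩ := hB.embed V'
  obtain ⟨VL, hVL⟩ := hB.tensor V L
  obtain ⟨U, hU⟩ := hB.sum VL Q
  have h2 : ∀ i, B.ch U i = (if i = 0 then (m : C.CH X) else 0) +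
      ∑ j ∈ Finset.range (i + 1), (if j = p then (N : C.CH X) * w else 0) * B.ch L (i - j) := by
    intro i
    rw [hU i, hVL i, ← hm i, ht i, ha i]
    have h3 : ∀ j, B.ch V j = B.ch V' j + if j = p then (N : C.CH X) * w else 0 := fun j => by
      rw [← h1 j]; ring
    simp only [h3, add_mul, Finset.sum_add_distrib]
    ring
  refine ⟨U, N, hN, ?_, fun i hi => ?_⟩
  · rw [h2 p, if_neg (by omega), zero_add, Finset.sum_eq_single p]
    · rw [if_pos rfl, Nat.sub_self, (hB.chern L).ch_zero, hL, Nat.cast_one, mul_one]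
    · intro j _ hj
      rw [if_neg hj, zero_mul]
    · intro h
      exact absurd (Finset.mem_range.2 (by omega)) h
  · rw [h2 i, if_neg (by omega), zero_add]
    refine Ideal.sum_mem _ fun j _ => Ideal.mul_mem_right _ _ ?_
    split_ifs
    · exact Ideal.mul_mem_left _ _ (Ideal.mem_span_singleton_self w)
    · exact Ideal.zero_mem _

/-- The ideal `q_* (x · CH(P))` of `CH(X)`. -/
noncomputable def pushIdeal (q : P ⟶ X) (x : C.CH P) : Ideal (C.CH X) where
  carrier := {a | ∃ y, a = C.push q (x * y)}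
  add_mem' := by
    rintro _ _ ⟨y, rfl⟩ ⟨z, rfl⟩
    exact ⟨y + z, by rw [mul_add, map_add]⟩
  zero_mem' := ⟨0, by rw [mul_zero, map_zero]⟩
  smul_mem' := by
    rintro a _ ⟨y, rfl⟩
    exact ⟨y * C.pull q a, by rw [smul_eq_mul, ← mul_assoc, C.push_mul, mul_comm]⟩

lemma mem_pushIdeal {q : P ⟶ X} {x : C.CH P} {a : C.CH X} :
    a ∈ pushIdeal q x ↔ ∃ y, a = C.push q (x * y) := Iff.rfl

/-- The Chern classes of positive degree are in the ideal generated by the push-forwards of the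
powers `ξ ^ i`, `i ≥ r`. -/
lemma chern_mem_pushIdeal {q : P ⟶ X} {r : ℕ} {c ch : ℕ → C.CH X} {ξ : C.CH P}
    (hc : IsChern r c ch) (h : IsProjectiveBundle C q r c ξ) (hr : 1 ≤ r) (i : ℕ) (hi : 1 ≤ i) :
    c i ∈ pushIdeal q (ξ ^ r) := by
  rcases Nat.lt_or_ge r i with h1 | h1
  · rw [hc.c_eq_zero i h1]
    exact Ideal.zero_mem _
  have h2 : ∑ l ∈ Finset.range (r + 1), c l * C.push q (ξ ^ (r + (i - 1) - l)) = 0 := by
    have h3 := congrArg (C.push q) (congrArg (fun x => x * ξ ^ (i - 1)) h.relation)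
    simp only [zero_mul, map_zero, Finset.sum_mul, map_sum] at h3
    rw [← h3]
    refine Finset.sum_congr rfl fun l hl => ?_
    have hl' := Finset.mem_range.1 hl
    rw [show pullOf C q (c l) = C.pull q (c l) from rfl, mul_assoc, C.mul_push, ← pow_add,
      show r - l + (i - 1) = r + (i - 1) - l by omega]
  have h4 : ∀ l ∈ Finset.range (r + 1), l ≠ i →
      c l * C.push q (ξ ^ (r + (i - 1) - l)) ∈ pushIdeal q (ξ ^ r) := by
    intro l hl hli
    rcases Nat.lt_or_ge l i with h5 | h5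
    · refine Ideal.mul_mem_left _ _ (mem_pushIdeal.2 ⟨ξ ^ (i - 1 - l), ?_⟩)
      rw [← pow_add, show r + (i - 1 - l) = r + (i - 1) - l by omega]
    · have hl' := Finset.mem_range.1 hl
      have h6 : C.push q (ξ ^ (r + (i - 1) - l)) = 0 := h.push_low _ (by omega)
      rw [h6, mul_zero]
      exact Ideal.zero_mem _
  have h7 : C.push q (ξ ^ (r + (i - 1) - i)) = 1 := by
    rw [show r + (i - 1) - i = r - 1 by omega]
    exact h.push_top
  rw [← Finset.add_sum_erase _ _ (Finset.mem_range.2 (show i < r + 1 by omega)), h7, mul_one,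
    add_eq_zero_iff_eq_neg] at h2
  rw [h2]
  refine (Ideal.neg_mem_iff _).2 (Ideal.sum_mem _ fun l hl => ?_)
  exact h4 l (Finset.mem_of_mem_erase hl) (Finset.ne_of_mem_erase hl)

/-- **Powers of divisor classes.** Every class `w` of positive codimension on a variety in `ℛ` is
equivalent to a power `D ^ r` of a divisor class on a projective bundle `q : Y ⟶ X`: the class
`D ^ r` is a multiple of `q^* w`, and `w` is the push-forward of a multiple of `D ^ r`. -/
theorem exists_power {ℛ : Set 𝒱.Obj} (hR : HasProjectiveBundles B ℛ) (hX : X ∈ ℛ) {p : ℕ}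
    (hp : 1 ≤ p) {w : C.CH X} (hw : w ∈ C.gr X p) :
    ∃ Y ∈ ℛ, ∃ q : Y ⟶ X, ∃ D ∈ C.gr Y 1, ∃ (r : ℕ) (y z : C.CH Y),
      D ^ r = C.pull q w * y ∧ w = C.push q (D ^ r * z) := by
  obtain ⟨U, N, hN, h1, h2⟩ := exists_bundle (hR.bundles X hX) hp hw
  have hc := (hR.bundles X hX).chern U
  have h3 : ∀ i, 1 ≤ i → B.c U i ∈ Ideal.span {w} := chern_mem hc _ h2
  rcases Nat.eq_zero_or_pos (B.rank U) with h0 | h0
  · have h4 : ∀ i, 1 ≤ i → B.c U i ∈ (⊥ : Ideal (C.CH X)) := fun i hi => by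
      rw [hc.c_eq_zero i (by omega)]
      exact Ideal.zero_mem _
    have h5 : w = 0 := by
      have := ch_mem hc _ h4 p hp
      rw [h1] at this
      exact Ideal.mem_bot.1 (mem_of_nat_mul_mem hN this)
    refine ⟨X, hX, 𝟙 X, 0, Submodule.zero_mem _, 1, 0, 0, ?_, ?_⟩
    · rw [pow_one, mul_zero]
    · rw [mul_zero, map_zero, h5]
  obtain ⟨P, hP, q, ξ, hq⟩ := hR.projective X hX U h0
  have h4 := chern_mem_pushIdeal hc hq h0
  have h5 : w ∈ pushIdeal q (ξ ^ B.rank U) := by
    have := ch_mem hc _ h4 p hp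
    rw [h1] at this
    exact mem_of_nat_mul_mem hN this
  obtain ⟨z, hz⟩ := h5
  have h6 : ξ ^ B.rank U ∈ Ideal.span {C.pull q w} := by
    have h7 := hq.relation
    rw [Finset.sum_range_succ', Nat.sub_zero, hc.c_zero,
      show pullOf C q 1 = 1 from map_one _, one_mul, add_comm, add_eq_zero_iff_eq_neg] at h7
    rw [h7]
    refine (Ideal.neg_mem_iff _).2 (Ideal.sum_mem _ fun i _ => Ideal.mul_mem_right _ _ ?_)
    obtain ⟨x, hx⟩ := Ideal.mem_span_singleton'.1 (h3 (i + 1) (by omega))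
    rw [← hx, show pullOf C q (x * w) = C.pull q x * C.pull q w from map_mul _ _ _]
    exact Ideal.mul_mem_left _ _ (Ideal.mem_span_singleton_self _)
  obtain ⟨y, hy⟩ := Ideal.mem_span_singleton'.1 h6
  exact ⟨P, hP, q, ξ, hq.codim, B.rank U, y, z, by rw [← hy, mul_comm], hz⟩

end Pool.Agent.R910.Pow
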