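import Pool.Agent.R910.Pow.HullDefs
import Pool.Agent.R910.Pow.Main
import Pool.Agent.R910.Nil.Hom

/-!
# Every class of cycles is interchangeable with a power of a divisor class
-/

open CategoryTheory AlgebraicGeometry
open Pool.Agent.H914 Pool.Agent.H914.VarClass Pool.Agent.H914.VarClass.Obj

universe u v w w'

namespace Pool.Agent.R910.Pow

open Pool.Agent.R903 ChowTheory Pool.Agent.R910.Nil

variable {k : Type u} [Field k] {𝒱 : VarClass k} {C : ChowTheory.{u, v} 𝒱} {X Y Z P : 𝒱.Obj}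
  {B : BundleData.{u, v, w} C} {𝒮 ℛ : Set 𝒱.Obj}

lemma IsImage.trans {a : C.CH X} {b : C.CH Y} {c : C.CH Z} (h : IsImage C a b)
    (h' : IsImage C b c) : IsImage C a c := by
  obtain ⟨γ, rfl⟩ := h
  obtain ⟨δ, rfl⟩ := h'
  exact ⟨C.comp γ δ, C.act_comp γ δ a⟩

lemma isImage_pull_mul (q : Y ⟶ X) (a : C.CH X) (y : C.CH Y) : IsImage C a (C.pull q a * y) :=
  ⟨C.span q (𝟙 Y) y, by rw [C.act_span, C.push_id, mul_comm]⟩

lemma isImage_push_mul (q : Y ⟶ X) (b y : C.CH Y) : IsImage C b (C.push q (b * y)) :=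
  ⟨C.span (𝟙 Y) q y, by rw [C.act_span, C.pull_id, mul_comm]⟩

lemma Interchangeable.trans {a : C.CH X} {b : C.CH Y} {c : C.CH Z} (h : Interchangeable C a b)
    (h' : Interchangeable C b c) : Interchangeable C a c :=
  ⟨h.1.trans h'.1, h'.2.trans h.2⟩

/-- Classes of positive codimension on the varieties in `ℛ`. -/
lemma isPowerOn_of_pos (hR : HasProjectiveBundles B ℛ) (hX : X ∈ ℛ) {p : ℕ} (hp : 1 ≤ p)
    {w : C.CH X} (hw : w ∈ C.gr X p) : IsPowerOn C ℛ w := by
  obtain ⟨Y, hY, q, D, hD, r, y, z, h1, h2⟩ := exists_power hR hX hp hw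
  refine ⟨Y, hY, D, r, hD, ?_, ?_⟩
  · rw [h1]
    exact isImage_pull_mul q w y
  · have h3 := isImage_push_mul q (D ^ r) z
    rwa [← h2] at h3

/-- The class and its image on the hull. -/
lemma interchangeable_hull {E B' : 𝒱.Obj} {p : E ⟶ X} {i : E ⟶ B'} (h : IsCentreOf C p i)
    (w : C.CH X) : Interchangeable C w (C.push i (C.pull p w)) := by
  obtain ⟨c, hc, h⟩ := h
  change ∀ w : C.CH X, C.push p (C.pull i (C.push i (C.pull p w))) = c • w at h
  constructor
  · have h1 := (isImage_pull_mul p w 1).trans (isImage_push_mul i (C.pull p w * 1) 1)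
    rwa [mul_one, mul_one] at h1
  · set b := C.push i (C.pull p w) with hb
    have h1 := (isImage_pull_mul i b 1).trans
      (isImage_push_mul p (C.pull i b * 1) (algebraMap ℚ (C.CH E) c⁻¹))
    have h2 : C.push p (C.pull i b * 1 * algebraMap ℚ (C.CH E) c⁻¹) = w := by
      rw [mul_one, mul_comm, ← Algebra.smul_def, map_smul, hb, h, smul_smul, inv_mul_cancel₀ hc,
        one_smul]
    rwa [h2] at h1

/-- **Powers of divisor classes.** Every class of cycles on a variety in `𝒮` is interchangeable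
with a power of a divisor class on a variety in `ℛ`. -/
theorem isPowerOn (hH : HasHulls C 𝒮 ℛ) (hR : HasProjectiveBundles B ℛ) (hX : X ∈ 𝒮) {p : ℕ}
    {w : C.CH X} (hw : w ∈ C.gr X p) : IsPowerOn C ℛ w := by
  obtain ⟨B', hB', hd, E, q, i, hE, hc⟩ := hH.hull X hX
  have h1 : C.push i (C.pull q w) ∈ C.gr B' (p + 1) :=
    C.push_mem i (C.pull_mem q hw) (by omega)
  obtain ⟨Y, hY, D, r, hD, h2⟩ := isPowerOn_of_pos hR hB' (by omega) h1
  exact ⟨Y, hY, D, r, hD, (interchangeable_hull hc w).trans h2⟩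

/-- A property of classes is adequate if it passes to the images under correspondences. -/
def Adequate (C : ChowTheory.{u, v} 𝒱) (T : ∀ X : 𝒱.Obj, C.CH X → Prop) : Prop :=
  ∀ (X Y : 𝒱.Obj) (a : C.CH X) (b : C.CH Y), IsImage C a b → T X a → T Y b

/-- Two adequate properties can be compared on powers of divisor classes. -/
theorem forall_iff_powers (hH : HasHulls C 𝒮 ℛ) (hR : HasProjectiveBundles B ℛ)
    {T₁ T₂ : ∀ X : 𝒱.Obj, C.CH X → Prop} (h₁ : Adequate C T₁) (h₂ : Adequate C T₂) :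
    (∀ X ∈ 𝒮, ∀ (p : ℕ) (w : C.CH X), IsCodim C p w → T₁ X w → T₂ X w) ↔
      ∀ Y ∈ ℛ, ∀ (D : C.CH Y) (r : ℕ), IsCodim C 1 D → T₁ Y (D ^ r) → T₂ Y (D ^ r) := by
  constructor
  · intro h Y hY D r hD h3
    refine h Y (hH.subset hY) r (D ^ r) ?_ h3
    clear h3
    induction r with
    | zero => rw [pow_zero]; exact C.one_mem Y
    | succ r ih => rw [pow_succ]; exact C.mul_mem ih hD
  · intro h X hX p w hw hT
    obtain ⟨Y, hY, D, r, hD, h3, h4⟩ := isPowerOn hH hR hX hw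
    exact h₂ _ _ _ _ h4 (h Y hY D r hD (h₁ _ _ _ _ h3 hT))

lemma adequate_smashNilpotent : Adequate C fun X a => C.SmashNilpotent (X := X) a := by
  rintro X Y a _ ⟨γ, rfl⟩ h
  exact sn_act h γ

lemma adequate_numTriv : Adequate C fun X a => C.NumTriv (X := X) a := by
  rintro X Y a _ ⟨γ, rfl⟩ h
  exact nt_act h γ

lemma adequate_homTriv (W : WeilTheory.{u, v, w'} C) :
    Adequate C fun X a => HomTriv W (X := X) a := by
  rintro X Y a _ ⟨γ, rfl⟩ h
  exact ht_act h γ

lemma adequate_zero : Adequate C fun X (a : C.CH X) => a = 0 := by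
  rintro X Y a _ ⟨γ, rfl⟩ rfl
  exact map_zero _

theorem isHomPowerOn (W : WeilTheory.{u, v, w'} C) (hH : HasHulls C 𝒮 ℛ)
    (hR : HasProjectiveBundles B ℛ) (hX : X ∈ 𝒮) {p : ℕ} {w : C.CH X} (hw : w ∈ C.gr X p) :
    IsHomPowerOn W ℛ w := by
  obtain ⟨Y, hY, D, r, hD, h1, h2⟩ := isPowerOn hH hR hX hw
  exact ⟨Y, hY, D, r, hD, ⟨h1, h2⟩,
    ⟨fun h => adequate_homTriv W _ _ _ _ h1 h, fun h => adequate_homTriv W _ _ _ _ h2 h⟩,
    ⟨fun h => adequate_smashNilpotent _ _ _ _ h1 h,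
      fun h => adequate_smashNilpotent _ _ _ _ h2 h⟩⟩

/-- **Voevodsky's conjecture and powers of divisor classes**, for homological equivalence. -/
theorem homVoevodskyFor_iff_powers (W : WeilTheory.{u, v, w'} C) (hH : HasHulls C 𝒮 ℛ)
    (hR : HasProjectiveBundles B ℛ) : HomVoevodskyFor W 𝒮 ↔ HomVoevodskyForPowers W ℛ :=
  forall_iff_powers hH hR (adequate_homTriv W) adequate_smashNilpotent

end Pool.Agent.R910.Pow
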