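import Pool.Agent.R910.Pow.Num

/-!
# Two adequate properties of classes of cycles, and the middle dimension
-/

open CategoryTheory AlgebraicGeometry
open Pool.Agent.H914 Pool.Agent.H914.VarClass Pool.Agent.H914.VarClass.Obj

universe u v w

namespace Pool.Agent.R910.Pow

open Pool.Agent.R903 ChowTheory Pool.Agent.R910.Nil

variable {k : Type u} [Field k] {𝒱 : VarClass k} {C : ChowTheory.{u, v} 𝒱} {X Y Z P : 𝒱.Obj}
  {𝒮 ℛ : Set 𝒱.Obj} {T₁ T₂ : ∀ X : 𝒱.Obj, C.CH X → Prop}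

/-- `T₁` implies `T₂` for classes of dimension `j` on `X`. -/
def ImpliesIn (T₁ T₂ : ∀ X : 𝒱.Obj, C.CH X → Prop) (X : 𝒱.Obj) (j : ℕ) : Prop :=
  j ≤ X.dim → ∀ a ∈ C.gr X (X.dim - j), T₁ X a → T₂ X a

/-- classes with the property `T₁` come from hyperplane sections, in dimension greater than
`2 j + c` -/
def SectionsFor (T₁ : ∀ X : 𝒱.Obj, C.CH X → Prop) (𝒮 : Set 𝒱.Obj) (c : ℕ) : Prop :=
  ∀ X ∈ 𝒮, ∀ j, 2 * j + c < X.dim → ∀ w ∈ C.gr X (X.dim - j), T₁ X w →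
    ∃ Z ∈ 𝒮, ∃ f : Z ⟶ X, X.dim = Z.dim + 1 ∧ ∃ w' ∈ C.gr Z (Z.dim - j), T₁ Z w' ∧
      C.push f w' = w

lemma Adequate.pull_mul (h : Adequate C T₁) (q : Y ⟶ X) {a : C.CH X} (ha : T₁ X a) (y : C.CH Y) :
    T₁ Y (C.pull q a * y) := h _ _ _ _ (isImage_pull_mul q a y) ha

lemma Adequate.push_mul (h : Adequate C T₁) (q : Y ⟶ X) {b : C.CH Y} (hb : T₁ Y b) (y : C.CH Y) :
    T₁ X (C.push q (b * y)) := h _ _ _ _ (isImage_push_mul q b y) hb

lemma Adequate.pull (h : Adequate C T₁) (q : Y ⟶ X) {a : C.CH X} (ha : T₁ X a) :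
    T₁ Y (C.pull q a) := by
  have := h.pull_mul q ha 1
  rwa [mul_one] at this

lemma Adequate.push (h : Adequate C T₁) (q : Y ⟶ X) {b : C.CH Y} (hb : T₁ Y b) :
    T₁ X (C.push q b) := by
  have := h.push_mul q hb 1
  rwa [mul_one] at this

lemma Adequate.of_smul (h : Adequate C T₁) {c : ℚ} (hc : c ≠ 0) {a : C.CH X}
    (ha : T₁ X (c • a)) : T₁ X a := by
  have h1 := h.pull_mul (𝟙 X) ha (algebraMap ℚ (C.CH X) c⁻¹)
  rwa [C.pull_id, mul_comm, ← Algebra.smul_def, smul_smul, inv_mul_cancel₀ hc, one_smul] at h1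

lemma impliesIn_of_pull (h₁ : Adequate C T₁) (h₂ : Adequate C T₂) (hP : IsLineFor C 𝒮 P) {j : ℕ}
    (h : ImpliesIn T₁ T₂ (X.prod P) (j + 1)) : ImpliesIn T₁ T₂ X j := by
  obtain ⟨o, ho, hdeg⟩ := hP.point
  intro hj a ha hn
  have hd : (X.prod P).dim = X.dim + 1 := by rw [dim_prod, hP.dim_eq]
  have h1 : T₂ _ (C.pull (fst X P) a) := by
    refine h (by omega) _ ?_ (h₁.pull _ hn)
    rw [hd, show X.dim + 1 - (j + 1) = X.dim - j by omega]
    exact C.pull_mem _ ha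
  have h2 := h₂.push_mul (fst X P) h1 (C.pull (snd X P) o)
  rw [C.mul_push, push_fst_pull_snd, mul_comm, ← Algebra.smul_def] at h2
  exact h₂.of_smul hdeg h2

lemma impliesIn_of_mul (h₁ : Adequate C T₁) (h₂ : Adequate C T₂) (hP : IsLineFor C 𝒮 P) {j : ℕ}
    (h : ImpliesIn T₁ T₂ (X.prod P) j) : ImpliesIn T₁ T₂ X j := by
  obtain ⟨o, ho, hdeg⟩ := hP.point
  intro hj a ha hn
  have hd : (X.prod P).dim = X.dim + 1 := by rw [dim_prod, hP.dim_eq]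
  have h1 : T₂ _ (C.pull (fst X P) a * C.pull (snd X P) o) := by
    refine h (by omega) _ ?_ (h₁.pull_mul _ hn _)
    rw [hd, show X.dim + 1 - j = X.dim - j + 1 by omega]
    exact C.mul_mem (C.pull_mem _ ha) (C.pull_mem _ ho)
  have h2 := h₂.push (fst X P) h1
  rw [C.mul_push, push_fst_pull_snd, mul_comm, ← Algebra.smul_def] at h2
  exact h₂.of_smul hdeg h2

lemma impliesIn_of_le (h₁ : Adequate C T₁) (h₂ : Adequate C T₂) (hP : IsLineFor C 𝒮 P) {j n : ℕ}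
    (h : ∀ X ∈ 𝒮, X.dim = n → ImpliesIn T₁ T₂ X j) :
    ∀ r s, s ≤ j → ∀ X ∈ 𝒮, X.dim + r + s = n → ImpliesIn T₁ T₂ X (j - s) := by
  have h3 : ∀ s, s ≤ j → ∀ X ∈ 𝒮, X.dim + s = n → ImpliesIn T₁ T₂ X (j - s) := by
    intro s
    induction s with
    | zero => exact fun _ X hX hn => h X hX hn
    | succ s ih =>
      intro hs X hX hn
      refine impliesIn_of_pull h₁ h₂ hP ?_
      have := ih (by omega) (X.prod P) (hP.prod_mem X hX) (by rw [dim_prod, hP.dim_eq]; omega)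
      rwa [show j - s = j - (s + 1) + 1 by omega] at this
  intro r
  induction r with
  | zero => exact fun s hs X hX hn => h3 s hs X hX (by omega)
  | succ r ih =>
    intro s hs X hX hn
    exact impliesIn_of_mul h₁ h₂ hP (ih s hs (X.prod P) (hP.prod_mem X hX)
      (by rw [dim_prod, hP.dim_eq]; omega))

lemma impliesIn_of_sections (h₂ : Adequate C T₂) {c : ℕ} (hS : SectionsFor T₁ 𝒮 c) {j : ℕ}
    (h : ∀ X ∈ 𝒮, X.dim = 2 * j + c → ImpliesIn T₁ T₂ X j) :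
    ∀ r, ∀ X ∈ 𝒮, X.dim = 2 * j + c + r → ImpliesIn T₁ T₂ X j := by
  intro r
  induction r with
  | zero => exact h
  | succ r ih =>
    intro X hX hd hj a ha hn
    obtain ⟨Z, hZ, f, hZd, w', hw', hn', rfl⟩ := hS X hX j (by omega) a ha hn
    exact h₂.push f (ih Z hZ (by omega) (by omega) w' hw' hn')

/-- **The middle dimension** for two adequate properties. -/
theorem impliesIn_all (h₁ : Adequate C T₁) (h₂ : Adequate C T₂) {c : ℕ}
    (hS : SectionsFor T₁ 𝒮 c) (hP : IsLineFor C 𝒮 P) {j n : ℕ} (hn : 2 * j + c ≤ n)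
    (h : ∀ X ∈ 𝒮, X.dim = n → ImpliesIn T₁ T₂ X j) (X : 𝒱.Obj) (hX : X ∈ 𝒮) (i : ℕ)
    (hi : i ≤ j) : ImpliesIn T₁ T₂ X i := by
  have h3 : ∀ X ∈ 𝒮, X.dim = 2 * i + c → ImpliesIn T₁ T₂ X i := by
    intro X hX hd
    have := impliesIn_of_le h₁ h₂ hP h (n - (2 * i + c) - (j - i)) (j - i) (by omega) X hX
      (by omega)
    rwa [show j - (j - i) = i by omega] at this
  rcases Nat.lt_or_ge X.dim (2 * i + c) with h4 | h4
  · exact impliesIn_of_le h₁ h₂ hP h3 (2 * i + c - X.dim) 0 (by omega) X hX (by omega)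
  · exact impliesIn_of_sections h₂ hS h3 (X.dim - (2 * i + c)) X hX (by omega)

lemma impliesIn_of_centre (h₁ : Adequate C T₁) (h₂ : Adequate C T₂) {E B : 𝒱.Obj} {p : E ⟶ X}
    {i : E ⟶ B} (h : IsCentreOf C p i) (hE : E.dim = X.dim + 1) (hB : B.dim = X.dim + 2) {j : ℕ}
    (hN : ImpliesIn T₁ T₂ B (j + 1)) : ImpliesIn T₁ T₂ X j := by
  obtain ⟨c, hc, h⟩ := h
  change ∀ w : C.CH X, C.push p (C.pull i (C.push i (C.pull p w))) = c • w at h
  intro hj a ha hn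
  have h3 := h₂.push p (h₂.pull i (hN (by omega) (C.push i (C.pull p a))
    (C.push_mem i (C.pull_mem p ha) (by omega)) (h₁.push i (h₁.pull p hn))))
  rw [h] at h3
  exact h₂.of_smul hc h3

/-- `T` is closed under sums. -/
def ClosedUnderSums (T : ∀ X : 𝒱.Obj, C.CH X → Prop) : Prop :=
  ∀ (X : 𝒱.Obj) (m : ℕ) (a : Fin m → C.CH X), (∀ s, T X (a s)) → T X (∑ s, a s)

lemma impliesIn_of_decomposition (h₁ : Adequate C T₁) (h₂ : Adequate C T₂)
    (hsum : ClosedUnderSums T₂) (h0 : ∀ X, T₂ X 0) {B : 𝒱.Obj} {m : ℕ} {Z : Fin m → 𝒱.Obj}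
    {e : Fin m → ℕ} {α : ∀ s, C.CH (B.prod (Z s))} {β : ∀ s, C.CH ((Z s).prod B)}
    (h : IsDecomposition C B Z e α β) {j : ℕ} (hN : ∀ s, ∀ i ≤ j, ImpliesIn T₁ T₂ (Z s) i) :
    ImpliesIn T₁ T₂ B (j + 1) := by
  intro hj a ha hn
  rw [← h.2 (B.dim - (j + 1)) (by omega) a ha]
  refine hsum _ _ _ fun s => ?_
  refine h₂ _ _ (C.act (α s) a) _ ⟨β s, rfl⟩ ?_
  rcases Nat.lt_or_ge (B.dim - (j + 1) + ((Z s).dim + (e s + 1))) B.dim with h3 | h3
  · rw [C.act_eq_zero (h.1 s) ha h3]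
    exact h0 _
  have h4 : C.act (α s) a ∈ C.gr (Z s) ((Z s).dim + e s - j) :=
    C.act_mem (h.1 s) ha (by omega)
  rcases Nat.lt_or_ge j (e s) with h5 | h5
  · rw [C.gr_eq_bot (Z s) _ (by omega), Submodule.mem_bot] at h4
    rw [h4]
    exact h0 _
  · refine hN s (j - e s) (by omega) (by omega) _ ?_ (h₁ _ _ a _ ⟨α s, rfl⟩ hn)
    rwa [show (Z s).dim - (j - e s) = (Z s).dim + e s - j by omega]

/-- `T₁` implies `T₂` for linear combinations of `p`-th powers of divisor classes on `X`. -/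
def ImpliesOnPowers (T₁ T₂ : ∀ X : 𝒱.Obj, C.CH X → Prop) (X : 𝒱.Obj) (p : ℕ) : Prop :=
  ∀ a ∈ powerSpan C X p, T₁ X a → T₂ X a

lemma impliesIn_of_powers (h₁ : Adequate C T₁) (h₂ : Adequate C T₂) (hR : SplitsByBlowUps C ℛ)
    {j n : ℕ} (h : ∀ X ∈ ℛ, X.dim = n → ImpliesOnPowers T₁ T₂ X (n - j)) (X : 𝒱.Obj)
    (hX : X ∈ ℛ) (hd : X.dim = n) : ImpliesIn T₁ T₂ X j := by
  intro _ a ha hn
  obtain ⟨X', hX', π, hd', h3, h4⟩ := hR X hX _ a ha
  rw [hd] at h4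
  have h5 := h₂.push π (h X' hX' (hd'.trans hd) _ h4 (h₁.pull π hn))
  have h6 : C.push π (C.pull π a) = a := by
    have h7 := C.push_mul π 1 a
    rw [one_mul] at h7
    rw [h7, show C.push π 1 = 1 from h3, one_mul]
  rwa [show C.push π (pullOf C π a) = a from h6] at h5

lemma impliesOnPowers_of {p j : ℕ} (hd : X.dim = p + j) (h : ImpliesIn T₁ T₂ X j) :
    ImpliesOnPowers T₁ T₂ X p := by
  intro a ha hn
  refine h (by omega) a ?_ hn
  rw [hd, show p + j - j = p by omega]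
  exact powerSpan_le X p ha

/-- **The middle dimension** for two adequate properties and fixed dimension of cycles. -/
theorem impliesIn_tfae (h₁ : Adequate C T₁) (h₂ : Adequate C T₂) (hsum : ClosedUnderSums T₂)
    (h0 : ∀ X, T₂ X 0) {c : ℕ} (hS : SectionsFor T₁ 𝒮 c) (hP : IsLineFor C 𝒮 P)
    (hR : IsBlowUpFamily C 𝒮 ℛ) (hs : SplitsByBlowUps C ℛ) (j : ℕ) :
    List.TFAE [
      ∀ X ∈ 𝒮, X.dim = 2 * j + c → ImpliesIn T₁ T₂ X j,
      ∀ X ∈ 𝒮, ∀ i ≤ j, ImpliesIn T₁ T₂ X i,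
      ∃ n, 2 * j + c ≤ n ∧ ∀ X ∈ 𝒮, X.dim = n → ImpliesIn T₁ T₂ X j,
      ∀ B ∈ ℛ, B.dim = 2 * j + 2 + c → ImpliesOnPowers T₁ T₂ B (j + 1 + c),
      ∀ B ∈ ℛ, ∀ i ≤ j + 1, ImpliesIn T₁ T₂ B i] := by
  tfae_have 1 → 3 := fun h => ⟨2 * j + c, le_rfl, h⟩
  tfae_have 3 → 2 := fun ⟨n, hn, h⟩ X hX i hi => impliesIn_all h₁ h₂ hS hP hn h X hX i hi
  tfae_have 2 → 5 := by
    intro h B hB i hi
    rcases Nat.lt_or_ge j i with h3 | h3
    · obtain ⟨m, Z, e, α, β, hZ, hd⟩ := hR.decomposition B hB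
      rw [show i = j + 1 by omega]
      exact impliesIn_of_decomposition h₁ h₂ hsum h0 hd fun s i hi => h (Z s) (hZ s) i hi
    · exact h B (hR.subset hB) i h3
  tfae_have 5 → 4 := fun h B hB hd => impliesOnPowers_of (j := j + 1) (by omega)
    (h B hB (j + 1) le_rfl)
  tfae_have 4 → 1 := by
    intro h X hX hd
    obtain ⟨B, hB, hBd, E, p, i, hE, hc⟩ := hR.hull X hX
    refine impliesIn_of_centre h₁ h₂ hc hE hBd ?_
    refine impliesIn_of_powers h₁ h₂ hs (n := 2 * j + 2 + c) (fun X hX hd => ?_) B hB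
      (by omega)
    rw [show 2 * j + 2 + c - (j + 1) = j + 1 + c by omega]
    exact h X hX hd
  tfae_finish

/-- **The middle dimension** for two adequate properties and all cycles. -/
theorem implies_tfae (h₁ : Adequate C T₁) (h₂ : Adequate C T₂) (hsum : ClosedUnderSums T₂)
    (h0 : ∀ X, T₂ X 0) {c : ℕ} (hS : SectionsFor T₁ 𝒮 c) (hP : IsLineFor C 𝒮 P)
    (hR : IsBlowUpFamily C 𝒮 ℛ) (hs : SplitsByBlowUps C ℛ) :
    List.TFAE [
      ∀ X ∈ 𝒮, ∀ j, ImpliesIn T₁ T₂ X j,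
      ∀ X ∈ ℛ, ∀ j, ImpliesIn T₁ T₂ X j,
      ∀ m, ∃ j, m ≤ j ∧ ∀ X ∈ 𝒮, X.dim = 2 * j + c → ImpliesIn T₁ T₂ X j,
      ∀ m, ∃ j, m ≤ j ∧ ∀ B ∈ ℛ, B.dim = 2 * j + c → ImpliesOnPowers T₁ T₂ B (j + c)] := by
  tfae_have 1 → 2 := fun h B hB j => h B (hR.subset hB) j
  tfae_have 2 → 4 := fun h m => ⟨m, le_rfl, fun B hB hd =>
    impliesOnPowers_of (j := m) (by omega) (h B hB m)⟩
  tfae_have 4 → 3 := by
    intro h m
    obtain ⟨j, hj, hB⟩ := h (m + 1)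
    refine ⟨j - 1, by omega, ((impliesIn_tfae h₁ h₂ hsum h0 hS hP hR hs (j - 1)).out 3 0).1
      fun B hB1 hB2 => ?_⟩
    rw [show j - 1 + 1 + c = j + c by omega]
    exact hB B hB1 (by omega)
  tfae_have 3 → 1 := by
    intro h X hX i
    obtain ⟨j, hj, hX2⟩ := h i
    have h3 := ((impliesIn_tfae h₁ h₂ hsum h0 hS hP hR hs j).out 0 1).1 hX2
    exact h3 X hX i hj
  tfae_finish

end Pool.Agent.R910.Pow
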