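import Pool.Agent.R910.Pow.NumDefs
import Pool.Agent.R910.Pow.Hull

/-!
# Rational and numerical equivalence and powers of divisors
-/

open CategoryTheory AlgebraicGeometry
open Pool.Agent.H914 Pool.Agent.H914.VarClass Pool.Agent.H914.VarClass.Obj

universe u v w

namespace Pool.Agent.R910.Pow

open Pool.Agent.R903 ChowTheory Pool.Agent.R910.Nil

variable {k : Type u} [Field k] {𝒱 : VarClass k} {C : ChowTheory.{u, v} 𝒱} {X Y P : 𝒱.Obj}
  {B : BundleData.{u, v, w} C} {𝒮 : Set 𝒱.Obj}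

/-- A class and its product with a point of the line. -/
lemma interchangeable_line (hP : IsLineFor C 𝒮 P) (X : 𝒱.Obj) {p : ℕ} {w : C.CH X}
    (hw : w ∈ C.gr X p) : ∃ b ∈ C.gr (X.prod P) (p + 1), Interchangeable C w b := by
  obtain ⟨o, ho, hdeg⟩ := hP.point
  refine ⟨C.pull (fst X P) w * C.pull (snd X P) o, C.mul_mem (C.pull_mem _ hw) (C.pull_mem _ ho),
    isImage_pull_mul _ w _, ?_⟩
  have h1 := isImage_push_mul (fst X P) (C.pull (fst X P) w * C.pull (snd X P) o)
    (C.pull (fst X P) (algebraMap ℚ (C.CH X) (C.deg P o)⁻¹))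
  have h2 : C.push (fst X P) (C.pull (fst X P) w * C.pull (snd X P) o *
      C.pull (fst X P) (algebraMap ℚ (C.CH X) (C.deg P o)⁻¹)) = w := by
    rw [C.push_mul, C.mul_push, push_fst_pull_snd, mul_assoc, ← map_mul,
      mul_inv_cancel₀ hdeg, map_one, mul_one]
  rwa [h2] at h1

/-- Every class on a variety in `𝒮` is interchangeable with a power of a divisor class. -/
theorem isPowerOn_self (hP : IsLineFor C 𝒮 P) (hR : HasProjectiveBundles B 𝒮) (hX : X ∈ 𝒮)
    {p : ℕ} {w : C.CH X} (hw : w ∈ C.gr X p) : IsPowerOn C 𝒮 w := by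
  obtain ⟨b, hb, h1⟩ := interchangeable_line hP X hw
  obtain ⟨Y, hY, D, r, hD, h2⟩ := isPowerOn_of_pos hR (hP.prod_mem X hX) (by omega) hb
  exact ⟨Y, hY, D, r, hD, h1.trans h2⟩

lemma powerSpan_le (X : 𝒱.Obj) (p : ℕ) : powerSpan C X p ≤ C.gr X p := by
  refine Submodule.span_le.2 ?_
  rintro _ ⟨D, hD, rfl⟩
  have h2 : ∀ q : ℕ, D ^ q ∈ C.gr X q := by
    intro q
    induction q with
    | zero => rw [pow_zero]; exact C.one_mem X
    | succ q ih => rw [pow_succ]; exact C.mul_mem ih hD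
  exact h2 p

/-- **Rational and numerical equivalence and powers of divisor classes.** -/
theorem ratEqNum_tfae (hP : IsLineFor C 𝒮 P) (hR : HasProjectiveBundles B 𝒮) :
    List.TFAE [RatEqNum C 𝒮, RatEqNumForPolynomials C 𝒮, RatEqNumForPowers C 𝒮] := by
  tfae_have 1 → 2 := fun h X hX p w hw => h X hX p w (powerSpan_le X p hw)
  tfae_have 2 → 3 := fun h X hX D r hD =>
    h X hX r (D ^ r) (Submodule.subset_span ⟨D, hD, rfl⟩)
  tfae_have 3 → 1 := by
    intro h X hX p w hw hn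
    obtain ⟨Y, hY, D, r, hD, h1, h2⟩ := isPowerOn_self hP hR hX hw
    exact adequate_zero _ _ _ _ h2 (h Y hY D r hD (adequate_numTriv _ _ _ _ h1 hn))
  tfae_finish

end Pool.Agent.R910.Pow
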