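import Pool.Agent.R910.Pow.Defs
import Pool.Agent.R910.Nil.HomDefs

/-!
# Rational and numerical equivalence and powers of divisors: definitions
-/

open CategoryTheory AlgebraicGeometry
open Pool.Agent.H914 Pool.Agent.H914.VarClass Pool.Agent.H914.VarClass.Obj

universe u v w

namespace Pool.Agent.R910.Pow

open Pool.Agent.R903 Pool.Agent.R910.Nil

variable {k : Type u} [Field k] {𝒱 : VarClass k}

/-- Rational and numerical equivalence coincide on the varieties in `𝒮`: every numerically trivial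
class in `CH ^ p (X)` is `0`, for all `p`. -/
def RatEqNum (C : ChowTheory.{u, v} 𝒱) (𝒮 : Set 𝒱.Obj) : Prop :=
  ∀ X ∈ 𝒮, ∀ (p : ℕ) (w : C.CH X), IsCodim C p w → C.NumTriv w → w = 0

/-- The numerically trivial linear combinations of `p`-th powers of divisor classes on the varieties
in `𝒮` are `0`, for all `p`. -/
def RatEqNumForPolynomials (C : ChowTheory.{u, v} 𝒱) (𝒮 : Set 𝒱.Obj) : Prop :=
  ∀ X ∈ 𝒮, ∀ (p : ℕ) (w : C.CH X), w ∈ powerSpan C X p → C.NumTriv w → w = 0

/-- The numerically trivial powers of divisor classes on the varieties in `𝒮` are `0`. -/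
def RatEqNumForPowers (C : ChowTheory.{u, v} 𝒱) (𝒮 : Set 𝒱.Obj) : Prop :=
  ∀ X ∈ 𝒮, ∀ (D : C.CH X) (r : ℕ), IsCodim C 1 D → C.NumTriv (D ^ r) → D ^ r = 0

end Pool.Agent.R910.Pow
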